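import Mathlib

/-!
# Integer polynomials with small coefficients at a large integer
-/

set_option autoImplicit false

namespace Pool.Agent.Q103.FC

open Polynomial Finset

/-- Coefficientwise majorisation. -/
def Maj (P : ℤ[X]) (M : ℝ[X]) : Prop := ∀ n, |(P.coeff n : ℝ)| ≤ M.coeff n

theorem Maj.nonneg {P : ℤ[X]} {M : ℝ[X]} (h : Maj P M) (n : ℕ) : 0 ≤ M.coeff n :=
  (abs_nonneg _).trans (h n)

theorem Maj.mul {P Q : ℤ[X]} {M N : ℝ[X]} (h : Maj P M) (k : Maj Q N) : Maj (P * Q) (M * N) := by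
  intro n
  rw [coeff_mul, coeff_mul]
  push_cast
  refine (Finset.abs_sum_le_sum_abs _ _).trans (Finset.sum_le_sum fun x _ => ?_)
  rw [abs_mul]
  exact mul_le_mul (h _) (k _) (abs_nonneg _) (h.nonneg _)

theorem Maj.one : Maj 1 1 := by
  intro n
  rw [coeff_one, coeff_one]
  split_ifs <;> simp

theorem Maj.pow {P : ℤ[X]} {M : ℝ[X]} (h : Maj P M) (k : ℕ) : Maj (P ^ k) (M ^ k) := by
  induction k with
  | zero => simpa using Maj.one
  | succ k ih => rw [pow_succ, pow_succ]; exact ih.mul h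

theorem Maj.add {P Q : ℤ[X]} {M N : ℝ[X]} (h : Maj P M) (k : Maj Q N) : Maj (P + Q) (M + N) := by
  intro n
  rw [coeff_add, coeff_add]
  push_cast
  exact (abs_add_le _ _).trans (add_le_add (h n) (k n))

theorem Maj.sub {P Q : ℤ[X]} {M N : ℝ[X]} (h : Maj P M) (k : Maj Q N) : Maj (P - Q) (M + N) := by
  intro n
  rw [coeff_sub, coeff_add]
  push_cast
  exact (abs_sub _ _).trans (add_le_add (h n) (k n))

theorem Maj.le_eval {P : ℤ[X]} {M : ℝ[X]} (h : Maj P M) (n : ℕ) :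
    |(P.coeff n : ℝ)| ≤ M.eval 1 := by
  refine (h n).trans ?_
  rw [eval_eq_sum_range]
  simp only [one_pow, mul_one]
  by_cases hn : n ∈ range (M.natDegree + 1)
  · exact Finset.single_le_sum (fun i _ => h.nonneg i) hn
  · rw [Finset.mem_range, not_lt] at hn
    rw [coeff_eq_zero_of_natDegree_lt (by omega)]
    exact Finset.sum_nonneg fun i _ => h.nonneg i

/-- The majorant of the polynomials of degree at most `K` and coefficients at most `B`. -/
noncomputable def box (K : ℕ) (B : ℝ) : ℝ[X] := ∑ i ∈ range (K + 1), C B * X ^ i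

theorem box_eval (K : ℕ) (B : ℝ) : (box K B).eval 1 = (K + 1) * B := by
  rw [box, eval_finsetSum]
  simp

theorem maj_box {P : ℤ[X]} {K : ℕ} {B : ℝ} (hK : P.natDegree ≤ K)
    (h : ∀ n, |(P.coeff n : ℝ)| ≤ B) : Maj P (box K B) := by
  intro n
  rw [box, finsetSum_coeff]
  simp only [coeff_C_mul, coeff_X_pow]
  simp only [mul_ite, mul_one, mul_zero]
  rw [Finset.sum_ite_eq]
  split_ifs with hn
  · exact h n
  · rw [Finset.mem_range, not_lt] at hn
    rw [coeff_eq_zero_of_natDegree_lt (by omega)]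
    simp

/-- The size of a polynomial with small coefficients at a large integer. -/
theorem size {P : ℤ[X]} {B T : ℝ} (hT : 2 ≤ T) (hB : 0 ≤ B) (h : ∀ n, |(P.coeff n : ℝ)| ≤ B) :
    |(P.map (Int.castRingHom ℝ)).eval T - (P.leadingCoeff : ℝ) * T ^ P.natDegree| * T ≤
      2 * B * T ^ P.natDegree := by
  have hT0 : 0 < T := by linarith
  have e : (P.map (Int.castRingHom ℝ)).eval T - (P.leadingCoeff : ℝ) * T ^ P.natDegree =
      ∑ i ∈ range P.natDegree, (P.coeff i : ℝ) * T ^ i := by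
    rw [eval_map, eval₂_eq_sum_range, Finset.sum_range_succ]
    simp only [Int.coe_castRingHom, coeff_natDegree]
    ring
  rw [e]
  have h1 : |∑ i ∈ range P.natDegree, (P.coeff i : ℝ) * T ^ i| ≤
      ∑ i ∈ range P.natDegree, B * T ^ i := by
    refine (Finset.abs_sum_le_sum_abs _ _).trans (Finset.sum_le_sum fun i _ => ?_)
    rw [abs_mul, abs_of_nonneg (by positivity : 0 ≤ T ^ i)]
    exact mul_le_mul_of_nonneg_right (h i) (by positivity)
  have h2 : ∀ n : ℕ, (∑ i ∈ range n, B * T ^ i) * T ≤ 2 * B * T ^ n := by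
    intro n
    induction n with
    | zero => simp; exact hB
    | succ n ih =>
      rw [Finset.sum_range_succ, add_mul]
      have h3 : 2 * B * T ^ n ≤ B * T ^ (n + 1) := by
        rw [pow_succ]
        have : 0 ≤ B * T ^ n := by positivity
        nlinarith
      have h4 : B * T ^ n * T = B * T ^ (n + 1) := by rw [pow_succ]; ring
      linarith
  exact (mul_le_mul_of_nonneg_right h1 hT0.le).trans (h2 _)

theorem eval_real (P : ℤ[X]) (t : ℕ) :
    (P.map (Int.castRingHom ℝ)).eval (t : ℝ) = ((P.eval (t : ℤ) : ℤ) : ℝ) := by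
  rw [eval_map, eval₂_at_natCast]
  simp

/-- A nonzero polynomial with small coefficients does not vanish at a large integer, and it has the
sign of its leading coefficient. -/
theorem lead_pos {P : ℤ[X]} {B : ℝ} {t : ℕ} (ht : 2 ≤ t) (hB : 0 ≤ B) (hBt : 2 * B < t)
    (h : ∀ n, |(P.coeff n : ℝ)| ≤ B) (hP : 0 ≤ P.eval (t : ℤ)) : P = 0 ∨ 0 < P.leadingCoeff := by
  by_cases h0 : P = 0
  · exact Or.inl h0
  right
  have hT : (2 : ℝ) ≤ t := by exact_mod_cast ht
  have hs := size hT hB h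
  rw [eval_real] at hs
  have hl : P.leadingCoeff ≠ 0 := leadingCoeff_ne_zero.mpr h0
  by_contra hcon
  have hl1 : P.leadingCoeff ≤ -1 := by omega
  have hl2 : (P.leadingCoeff : ℝ) ≤ -1 := by exact_mod_cast hl1
  have hP' : (0 : ℝ) ≤ ((P.eval (t : ℤ) : ℤ) : ℝ) := by exact_mod_cast hP
  have hpos : (0 : ℝ) < (t : ℝ) ^ P.natDegree := by positivity
  have h1 : (t : ℝ) ^ P.natDegree ≤
      |((P.eval (t : ℤ) : ℤ) : ℝ) - (P.leadingCoeff : ℝ) * (t : ℝ) ^ P.natDegree| := by
    refine le_trans ?_ (le_abs_self _)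
    nlinarith
  have h2 := mul_le_mul_of_nonneg_right h1 (by linarith : (0 : ℝ) ≤ t)
  nlinarith

theorem eq_zero_of_eval {P : ℤ[X]} {B : ℝ} {t : ℕ} (ht : 2 ≤ t) (hB : 0 ≤ B) (hBt : 2 * B < t)
    (h : ∀ n, |(P.coeff n : ℝ)| ≤ B) (hP : P.eval (t : ℤ) = 0) : P = 0 := by
  by_contra h0
  rcases lead_pos ht hB hBt h hP.ge with h1 | h1
  · exact h0 h1
  · have h' : ∀ n, |((-P).coeff n : ℝ)| ≤ B := by
      intro n
      rw [coeff_neg]
      push_cast
      rw [abs_neg]
      exact h n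
    rcases lead_pos ht hB hBt h' (by rw [eval_neg, hP]; simp) with h2 | h2
    · exact h0 (neg_eq_zero.mp h2)
    · rw [leadingCoeff_neg] at h2
      omega

/-- The logarithm of a value. -/
theorem log_size {P : ℤ[X]} {B : ℝ} {t : ℕ} (ht : 2 ≤ t) (hB : 0 ≤ B) (hBt : 4 * B ≤ t)
    (h : ∀ n, |(P.coeff n : ℝ)| ≤ B) (hl : 0 < P.leadingCoeff) :
    0 < P.eval (t : ℤ) ∧
    |Real.log ((P.eval (t : ℤ) : ℤ) : ℝ) -
      (Real.log (P.leadingCoeff : ℝ) + P.natDegree * Real.log t)| ≤ 4 * B / t := by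
  have hT : (2 : ℝ) ≤ t := by exact_mod_cast ht
  have hT0 : (0 : ℝ) < t := by linarith
  have hs := size hT hB h
  rw [eval_real] at hs
  obtain ⟨v, hv⟩ : ∃ v : ℝ, v = ((P.eval (t : ℤ) : ℤ) : ℝ) := ⟨_, rfl⟩
  rw [← hv] at hs ⊢
  have hl1 : (1 : ℝ) ≤ P.leadingCoeff := by exact_mod_cast hl
  obtain ⟨w, hw⟩ : ∃ w : ℝ, w = (P.leadingCoeff : ℝ) * (t : ℝ) ^ P.natDegree := ⟨_, rfl⟩
  have hw0 : 0 < w := by rw [hw]; positivity
  have hwt : (t : ℝ) ^ P.natDegree ≤ w := by
    rw [hw]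
    have : (0 : ℝ) < (t : ℝ) ^ P.natDegree := by positivity
    nlinarith
  rw [← hw] at hs
  have h1 : |v - w| ≤ 2 * B / t * w := by
    rw [div_mul_eq_mul_div, le_div_iff₀ hT0]
    refine hs.trans ?_
    exact mul_le_mul_of_nonneg_left hwt (by positivity)
  have h2 : 2 * B / t ≤ 1 / 2 := by
    rw [div_le_div_iff₀ hT0 (by norm_num)]
    linarith
  obtain ⟨θ, hθ⟩ : ∃ θ : ℝ, θ = v / w := ⟨_, rfl⟩
  have hvθ : v = θ * w := by rw [hθ]; field_simp
  have h3 : |θ - 1| ≤ 2 * B / t := by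
    rw [hvθ] at h1
    have e : θ * w - w = (θ - 1) * w := by ring
    rw [e, abs_mul, abs_of_pos hw0] at h1
    exact le_of_mul_le_mul_right h1 hw0
  have h4 : 1 / 2 ≤ θ := by
    have := (abs_le.mp h3).1
    linarith
  have hv0 : 0 < v := by rw [hvθ]; positivity
  have hB2 : 0 ≤ 2 * B / t := by positivity
  constructor
  · rw [hv] at hv0
    exact_mod_cast hv0
  · have h5 : Real.log (P.leadingCoeff : ℝ) + P.natDegree * Real.log t = Real.log w := by
      rw [hw, Real.log_mul (by positivity) (by positivity), Real.log_pow]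
    have h6 : Real.log v - Real.log w = Real.log θ := by
      rw [hθ, Real.log_div hv0.ne' hw0.ne']
    rw [h5, h6]
    have hθ0 : 0 < θ := by linarith
    have h7 : Real.log θ ≤ θ - 1 := Real.log_le_sub_one_of_pos hθ0
    have h8 : 1 - θ⁻¹ ≤ Real.log θ := Real.one_sub_inv_le_log_of_pos hθ0
    obtain ⟨h9, h10⟩ := abs_le.mp h3
    have h11 : -(2 * (2 * B / t)) ≤ 1 - θ⁻¹ := by
      have e : 1 - θ⁻¹ = (θ - 1) / θ := by field_simp
      rw [e, le_div_iff₀ hθ0]
      nlinarith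
    have e2 : 4 * B / t = 2 * (2 * B / t) := by ring
    rw [abs_le, e2]
    constructor <;> linarith

/-- Rational polynomials are, up to a constant, primitive integer polynomials. -/
theorem exists_primitive {P : ℚ[X]} (hP : P ≠ 0) : ∃ Q : ℤ[X], Q.IsPrimitive ∧
    ∃ c : ℚ, c ≠ 0 ∧ Q.map (Int.castRingHom ℚ) = C c * P := by
  obtain ⟨b, hbm, hb⟩ := IsLocalization.integerNormalization_spec (nonZeroDivisors ℤ) P
  set N := IsLocalization.integerNormalization (nonZeroDivisors ℤ) P with hN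
  have hb0 : (b : ℤ) ≠ 0 := nonZeroDivisors.ne_zero hbm
  have hN0 : N ≠ 0 := by
    intro h
    rw [h, Polynomial.map_zero] at hb
    exact (smul_ne_zero hb0 hP) hb.symm
  have hc0 : N.content ≠ 0 := by rwa [Ne, content_eq_zero_iff]
  refine ⟨N.primPart, N.isPrimitive_primPart, (b : ℤ) / (N.content : ℚ), by
    have : (N.content : ℚ) ≠ 0 := by exact_mod_cast hc0
    have : ((b : ℤ) : ℚ) ≠ 0 := by exact_mod_cast hb0
    positivity, ?_⟩
  have h1 : N = C N.content * N.primPart := N.eq_C_content_mul_primPart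
  have h2 : (algebraMap ℤ ℚ) = Int.castRingHom ℚ := rfl
  rw [h2] at hb
  have h3 : N.map (Int.castRingHom ℚ) = C (N.content : ℚ) * N.primPart.map (Int.castRingHom ℚ) := by
    conv_lhs => rw [h1]
    rw [Polynomial.map_mul, Polynomial.map_C]
    rfl
  have hcQ : (N.content : ℚ) ≠ 0 := by exact_mod_cast hc0
  rw [h3] at hb
  have h4 : C (N.content : ℚ)⁻¹ * (C (N.content : ℚ) * N.primPart.map (Int.castRingHom ℚ)) =
      C (N.content : ℚ)⁻¹ * ((b : ℤ) • P) := by rw [hb]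
  rw [← mul_assoc, ← C_mul, inv_mul_cancel₀ hcQ, C_1, one_mul] at h4
  rw [h4, zsmul_eq_mul, ← mul_assoc]
  congr 1
  rw [div_eq_inv_mul, C_mul]
  congr 1

/-- A nonconstant divisor of a polynomial with small coefficients is not `± 1` at a large integer. -/
theorem dvd_eval {f D : ℤ[X]} (hf : f ≠ 0) (hD : D ∣ f) (hdeg : 0 < D.natDegree) {B : ℝ}
    (hB : 0 ≤ B) (h : ∀ n, |(f.coeff n : ℝ)| ≤ B) {t : ℕ} (ht : B + 3 ≤ t) :
    ¬ IsUnit (D.eval (t : ℤ)) := by
  intro hu
  have hD0 : D ≠ 0 := by rintro rfl; simp at hdeg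
  set Dc := D.map (Int.castRingHom ℂ) with hDc
  have hinj : Function.Injective (Int.castRingHom ℂ) := Int.cast_injective
  have hDc0 : Dc ≠ 0 := (Polynomial.map_ne_zero_iff hinj).mpr hD0
  have hfc0 : f.map (Int.castRingHom ℂ) ≠ 0 := (Polynomial.map_ne_zero_iff hinj).mpr hf
  have hcard : Dc.roots.card = D.natDegree := by
    rw [← natDegree_map_eq_of_injective hinj D]
    exact (IsAlgClosed.splits Dc).natDegree_eq_card_roots.symm
  have hev : Dc.eval (t : ℂ) = ((D.eval (t : ℤ) : ℤ) : ℂ) := by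
    rw [hDc, eval_map, eval₂_at_natCast]
    simp
  have hprod : Dc.eval (t : ℂ) = Dc.leadingCoeff * (Dc.roots.map fun a => (t : ℂ) - a).prod := by
    conv_lhs => rw [(IsAlgClosed.splits Dc).eq_prod_roots]
    rw [eval_mul, eval_C, eval_multiset_prod]
    simp [Multiset.map_map]
  have hnorm : ‖Dc.eval (t : ℂ)‖ = 1 := by
    rw [hev]
    rcases Int.isUnit_iff.mp hu with h1 | h1 <;> rw [h1] <;> simp
  have hlead : (1 : ℝ) ≤ ‖Dc.leadingCoeff‖ := by
    rw [hDc, leadingCoeff_map_of_injective hinj]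
    have h1 : D.leadingCoeff ≠ 0 := leadingCoeff_ne_zero.mpr hD0
    have h2 : (1 : ℤ) ≤ |D.leadingCoeff| := Int.one_le_abs h1
    have h3 : (1 : ℝ) ≤ |(D.leadingCoeff : ℝ)| := by exact_mod_cast h2
    simpa using h3
  have hroot : ∀ a ∈ Dc.roots, (2 : ℝ) ≤ ‖(t : ℂ) - a‖ := by
    intro a ha
    have h1 : Dc.IsRoot a := (mem_roots hDc0).mp ha
    have h2 : (f.map (Int.castRingHom ℂ)).IsRoot a := h1.dvd (by
      rw [hDc]
      exact Polynomial.map_dvd _ hD)
    have h3 := h2.norm_lt_cauchyBound hfc0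
    have h4 : ((f.map (Int.castRingHom ℂ)).cauchyBound : ℝ) ≤ B + 1 := by
      rw [cauchyBound]
      push_cast
      have h5 : ((sup (range (f.map (Int.castRingHom ℂ)).natDegree) fun i =>
          ‖(f.map (Int.castRingHom ℂ)).coeff i‖₊ : NNReal) : ℝ) ≤ B := by
        have h6 : (sup (range (f.map (Int.castRingHom ℂ)).natDegree) fun i =>
          ‖(f.map (Int.castRingHom ℂ)).coeff i‖₊) ≤ Real.toNNReal B := by
          refine Finset.sup_le fun i _ => ?_
          rw [← NNReal.coe_le_coe, Real.coe_toNNReal B hB]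
          simp only [coe_nnnorm, coeff_map]
          simpa using h i
        have h7 := NNReal.coe_le_coe.mpr h6
        rwa [Real.coe_toNNReal B hB] at h7
      have h7 : (1 : ℝ) ≤ ‖(f.map (Int.castRingHom ℂ)).leadingCoeff‖ := by
        rw [leadingCoeff_map_of_injective hinj]
        have h1 : f.leadingCoeff ≠ 0 := leadingCoeff_ne_zero.mpr hf
        have h2 : (1 : ℤ) ≤ |f.leadingCoeff| := Int.one_le_abs h1
        have h3 : (1 : ℝ) ≤ |(f.leadingCoeff : ℝ)| := by exact_mod_cast h2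
        simpa using h3
      have h8 : ((sup (range (f.map (Int.castRingHom ℂ)).natDegree) fun i =>
          ‖(f.map (Int.castRingHom ℂ)).coeff i‖₊ : NNReal) : ℝ) /
            ‖(f.map (Int.castRingHom ℂ)).leadingCoeff‖ ≤ B := by
        rw [div_le_iff₀ (by linarith)]
        nlinarith
      linarith
    have h5 : ‖(t : ℂ)‖ - ‖a‖ ≤ ‖(t : ℂ) - a‖ := norm_sub_norm_le _ _
    have h6 : ‖(t : ℂ)‖ = t := by simp
    rw [h6] at h5
    linarith
  have hge : ∀ s : Multiset ℂ, (∀ a ∈ s, (2 : ℝ) ≤ ‖(t : ℂ) - a‖) →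
      (2 : ℝ) ^ s.card ≤ ‖(s.map fun a => (t : ℂ) - a).prod‖ := by
    intro s
    induction s using Multiset.induction_on with
    | empty => intro _; simp
    | cons a s ih =>
      intro hs
      rw [Multiset.card_cons, Multiset.map_cons, Multiset.prod_cons, norm_mul, pow_succ, mul_comm]
      exact mul_le_mul (hs a (Multiset.mem_cons_self a s))
        (ih fun b hb => hs b (Multiset.mem_cons_of_mem hb)) (by positivity) (norm_nonneg _)
  have h1 := hge Dc.roots hroot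
  rw [hcard] at h1
  have h2 : (2 : ℝ) ^ 1 ≤ 2 ^ D.natDegree := pow_le_pow_right₀ (by norm_num) hdeg
  rw [hprod, norm_mul] at hnorm
  nlinarith [norm_nonneg (Dc.roots.map fun a => (t : ℂ) - a).prod]

/-- Coprime values at a large integer: the polynomials are coprime over `ℚ`. -/
theorem coprime_of_eval {f g : ℤ[X]} (hf : f ≠ 0) {B : ℝ}
    (hB : 0 ≤ B) (h : ∀ n, |(f.coeff n : ℝ)| ≤ B) {t : ℕ} (ht : B + 3 ≤ t)
    (hcop : IsCoprime (f.eval (t : ℤ)) (g.eval (t : ℤ))) :
    IsCoprime (f.map (Int.castRingHom ℚ)) (g.map (Int.castRingHom ℚ)) := by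
  by_contra hcon
  have hinj : Function.Injective (Int.castRingHom ℚ) := Int.cast_injective
  have hfc0 : f.map (Int.castRingHom ℚ) ≠ 0 := (Polynomial.map_ne_zero_iff hinj).mpr hf
  obtain ⟨P, hP, hPf, hPg⟩ : ∃ P : ℚ[X], Irreducible P ∧ P ∣ f.map (Int.castRingHom ℚ) ∧
      P ∣ g.map (Int.castRingHom ℚ) := by
    by_contra hno
    push Not at hno
    apply hcon
    apply isCoprime_of_irreducible_dvd
    · intro h0
      exact hfc0 h0.1
    · intro z hz h1 h2
      exact hno z hz h1 h2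
  obtain ⟨Q, hQ, c, hc, hQP⟩ := exists_primitive hP.ne_zero
  have hdvd : ∀ {F : ℤ[X]}, P ∣ F.map (Int.castRingHom ℚ) → Q ∣ F := by
    intro F hF
    apply hQ.dvd_of_fraction_map_dvd_fraction_map (K := ℚ)
    change Q.map (Int.castRingHom ℚ) ∣ F.map (Int.castRingHom ℚ)
    rw [hQP]
    have hCu : IsUnit (C c : ℚ[X]) := isUnit_C.mpr (isUnit_iff_ne_zero.mpr hc)
    exact (hCu.mul_left_dvd).mpr hF
  have hdegQ : 0 < Q.natDegree := by
    have h1 : (Q.map (Int.castRingHom ℚ)).natDegree = P.natDegree := by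
      rw [hQP, natDegree_C_mul hc]
    rw [natDegree_map_eq_of_injective hinj] at h1
    rw [h1]
    exact hP.natDegree_pos
  refine dvd_eval hf (hdvd hPf) hdegQ hB h ht ?_
  obtain ⟨u, hu⟩ := hdvd hPf
  obtain ⟨w, hw⟩ := hdvd hPg
  refine hcop.isUnit_of_dvd' ⟨u.eval (t : ℤ), ?_⟩ ⟨w.eval (t : ℤ), ?_⟩
  · rw [← eval_mul, ← hu]
  · rw [← eval_mul, ← hw]

end Pool.Agent.Q103.FC
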