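import Mathlib
import Pool.Agent.Q103.FC.Poly

/-!
# Values of polynomials with small coefficients: the exponents are bounded
-/

set_option autoImplicit false

namespace Pool.Agent.Q103.FC

open Polynomial Finset

/-- `n b ^ (n-1) (c - b) ≤ c ^ n - b ^ n ≤ n c ^ (n-1) (c - b)`. -/
theorem pow_diff {b c : ℝ} (hb : 0 ≤ b) (hbc : b ≤ c) (n : ℕ) :
    (n + 1 : ℕ) * b ^ n * (c - b) ≤ c ^ (n + 1) - b ^ (n + 1) ∧
      c ^ (n + 1) - b ^ (n + 1) ≤ (n + 1 : ℕ) * c ^ n * (c - b) := by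
  have hc : 0 ≤ c := hb.trans hbc
  induction n with
  | zero => simp
  | succ n ih =>
    obtain ⟨h1, h2⟩ := ih
    have e : c ^ (n + 1 + 1) - b ^ (n + 1 + 1) =
        c * (c ^ (n + 1) - b ^ (n + 1)) + b ^ (n + 1) * (c - b) := by ring
    have e' : c ^ (n + 1 + 1) - b ^ (n + 1 + 1) =
        b * (c ^ (n + 1) - b ^ (n + 1)) + c ^ (n + 1) * (c - b) := by ring
    have hd : 0 ≤ c - b := by linarith
    have hpos : 0 ≤ c ^ (n + 1) - b ^ (n + 1) := by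
      have := pow_le_pow_left₀ hb hbc (n + 1)
      linarith
    constructor
    · rw [e]
      have h3 : b * ((n + 1 : ℕ) * b ^ n * (c - b)) ≤ c * (c ^ (n + 1) - b ^ (n + 1)) :=
        mul_le_mul hbc h1 (by positivity) hc
      have h4 : ((n + 1 + 1 : ℕ) : ℝ) * b ^ (n + 1) * (c - b) =
          b * ((n + 1 : ℕ) * b ^ n * (c - b)) + b ^ (n + 1) * (c - b) := by push_cast; ring
      linarith
    · rw [e']
      have h3 : b * (c ^ (n + 1) - b ^ (n + 1)) ≤ c * ((n + 1 : ℕ) * c ^ n * (c - b)) :=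
        mul_le_mul hbc h2 hpos hc
      have h4 : ((n + 1 + 1 : ℕ) : ℝ) * c ^ (n + 1) * (c - b) =
          c * ((n + 1 : ℕ) * c ^ n * (c - b)) + c ^ (n + 1) * (c - b) := by push_cast; ring
      linarith

theorem natDegree_pow_sub {g h : ℤ[X]} {y z K : ℕ} (hg : g.natDegree ≤ K) (hh : h.natDegree ≤ K)
    (hy : y ≤ K) (hz : z ≤ K) : (h ^ z - g ^ y).natDegree ≤ K ^ 2 := by
  refine (natDegree_sub_le _ _).trans (max_le ?_ ?_)
  · refine (natDegree_pow_le).trans ?_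
    rw [sq]
    exact Nat.mul_le_mul hz hh
  · refine (natDegree_pow_le).trans ?_
    rw [sq]
    exact Nat.mul_le_mul hy hg

theorem coeff_pow_sub {g h : ℤ[X]} {y z K : ℕ} {B : ℝ} (hB : 1 ≤ B) (hg : g.natDegree ≤ K)
    (hh : h.natDegree ≤ K) (hgB : ∀ n, |(g.coeff n : ℝ)| ≤ B) (hhB : ∀ n, |(h.coeff n : ℝ)| ≤ B)
    (hy : y ≤ K) (hz : z ≤ K) (n : ℕ) :
    |((h ^ z - g ^ y).coeff n : ℝ)| ≤ 2 * ((K + 1) * B) ^ K := by
  have h1 := ((maj_box hh hhB).pow z).sub ((maj_box hg hgB).pow y)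
  have h2 := h1.le_eval n
  rw [eval_add, eval_pow, eval_pow, box_eval] at h2
  have h3 : (1 : ℝ) ≤ (K + 1) * B := by
    have : (0 : ℝ) ≤ K := by positivity
    nlinarith
  have h4 : (((K : ℝ) + 1) * B) ^ z ≤ ((K + 1) * B) ^ K := pow_le_pow_right₀ h3 hz
  have h5 : (((K : ℝ) + 1) * B) ^ y ≤ ((K + 1) * B) ^ K := pow_le_pow_right₀ h3 hy
  linarith

/-- The exponents are bounded by a constant, if the second term is at least the first. -/
theorem bounded {K t x y z : ℕ} {f g h : ℤ[X]} {B L η M : ℝ}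
    (hf1 : 1 ≤ f.natDegree) (hfK : f.natDegree ≤ K) (hg1 : 1 ≤ g.natDegree) (hgK : g.natDegree ≤ K)
    (hh1 : 1 ≤ h.natDegree) (hhK : h.natDegree ≤ K)
    (hfl : 0 < f.leadingCoeff) (hgl : 0 < g.leadingCoeff) (hhl : 0 < h.leadingCoeff)
    (hL : 0 ≤ L) (hfL : Real.log (f.leadingCoeff : ℝ) = f.natDegree * L)
    (hgL : Real.log (g.leadingCoeff : ℝ) = g.natDegree * L)
    (hhL : Real.log (h.leadingCoeff : ℝ) = h.natDegree * L)
    (hB : 1 ≤ B) (hfB : ∀ n, |(f.coeff n : ℝ)| ≤ B) (hgB : ∀ n, |(g.coeff n : ℝ)| ≤ B)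
    (hhB : ∀ n, |(h.coeff n : ℝ)| ≤ B) (ht : 2 ≤ t) (hBt : 4 * B ≤ t) (hη : 4 * B / t ≤ η)
    (hB't : 16 * (2 * ((K + 1) * B) ^ K) ≤ t)
    (hx : 1 ≤ x) (hy : 1 ≤ y) (hz : 1 ≤ z) (hxM : (x : ℝ) ≤ M) (hyM : (y : ℝ) ≤ M) (hzM : (z : ℝ) ≤ M)
    (hMη : 3 * M * η ≤ 1 / 4) (hℓ : 2 ≤ Real.log t)
    (hℓ2 : Real.log M + Real.log (2 * ((K + 1) * B) ^ K) + 1 / 2 < Real.log t)
    (hℓ3 : (K : ℝ) ^ 2 * L + 1 / 2 < Real.log t)
    (heq : f.eval (t : ℤ) ^ x + g.eval (t : ℤ) ^ y = h.eval (t : ℤ) ^ z)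
    (hfg : f.eval (t : ℤ) ^ x ≤ g.eval (t : ℤ) ^ y) :
    (x : ℝ) ≤ K ^ 2 * Real.exp (K ^ 2 * L + 1 / 2) ∧ (y : ℝ) ≤ K ^ 2 * Real.exp (K ^ 2 * L + 1 / 2) ∧
      (z : ℝ) ≤ K ^ 2 * Real.exp (K ^ 2 * L + 1 / 2) := by
  have hT : (2 : ℝ) ≤ t := by exact_mod_cast ht
  have hT0 : (0 : ℝ) < t := by linarith
  obtain ⟨hfp, hfs⟩ := log_size ht (by linarith) hBt hfB hfl
  obtain ⟨hgp, hgs⟩ := log_size ht (by linarith) hBt hgB hgl
  obtain ⟨hhp, hhs⟩ := log_size ht (by linarith) hBt hhB hhl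
  have hcoefE := fun (y' z' : ℕ) (hy' : y' ≤ K) (hz' : z' ≤ K) =>
    coeff_pow_sub hB hgK hhK hgB hhB hy' hz'
  have hη0 : 0 ≤ η := le_trans (by positivity) hη
  rw [hfL] at hfs
  rw [hgL] at hgs
  rw [hhL] at hhs
  -- names
  obtain ⟨p, hp⟩ : ∃ p, p = f.natDegree := ⟨_, rfl⟩
  obtain ⟨q, hq⟩ : ∃ q, q = g.natDegree := ⟨_, rfl⟩
  obtain ⟨r, hr⟩ : ∃ r, r = h.natDegree := ⟨_, rfl⟩
  obtain ⟨a, ha⟩ : ∃ a : ℤ, a = f.eval (t : ℤ) := ⟨_, rfl⟩
  obtain ⟨b, hb⟩ : ∃ b : ℤ, b = g.eval (t : ℤ) := ⟨_, rfl⟩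
  obtain ⟨c, hc⟩ : ∃ c : ℤ, c = h.eval (t : ℤ) := ⟨_, rfl⟩
  obtain ⟨ℓ, hℓd⟩ : ∃ ℓ : ℝ, ℓ = Real.log t + L := ⟨_, rfl⟩
  rw [← hp] at hf1 hfK hfs
  rw [← hq] at hg1 hgK hgs
  rw [← hr] at hh1 hhK hhs
  rw [← ha] at hfp hfs heq hfg
  rw [← hb] at hgp hgs heq hfg
  rw [← hc] at hhp hhs heq
  have hfs' : |Real.log (a : ℝ) - p * ℓ| ≤ η := by
    have e : Real.log (a : ℝ) - p * ℓ = Real.log (a : ℝ) - (p * L + p * Real.log t) := by
      rw [hℓd]; ring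
    rw [e]; exact hfs.trans hη
  have hgs' : |Real.log (b : ℝ) - q * ℓ| ≤ η := by
    have e : Real.log (b : ℝ) - q * ℓ = Real.log (b : ℝ) - (q * L + q * Real.log t) := by
      rw [hℓd]; ring
    rw [e]; exact hgs.trans hη
  have hhs' : |Real.log (c : ℝ) - r * ℓ| ≤ η := by
    have e : Real.log (c : ℝ) - r * ℓ = Real.log (c : ℝ) - (r * L + r * Real.log t) := by
      rw [hℓd]; ring
    rw [e]; exact hhs.trans hη
  have haR : (0 : ℝ) < a := by exact_mod_cast hfp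
  have hbR : (0 : ℝ) < b := by exact_mod_cast hgp
  have hcR : (0 : ℝ) < c := by exact_mod_cast hhp
  have heqR : (a : ℝ) ^ x + (b : ℝ) ^ y = (c : ℝ) ^ z := by exact_mod_cast heq
  have hfgR : (a : ℝ) ^ x ≤ (b : ℝ) ^ y := by exact_mod_cast hfg
  have hax : (0 : ℝ) < (a : ℝ) ^ x := by positivity
  have hby : (0 : ℝ) < (b : ℝ) ^ y := by positivity
  have hcz : (0 : ℝ) < (c : ℝ) ^ z := by positivity
  obtain ⟨la, hla⟩ : ∃ la : ℝ, la = Real.log (a : ℝ) := ⟨_, rfl⟩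
  obtain ⟨lb, hlb⟩ : ∃ lb : ℝ, lb = Real.log (b : ℝ) := ⟨_, rfl⟩
  obtain ⟨lc, hlc⟩ : ∃ lc : ℝ, lc = Real.log (c : ℝ) := ⟨_, rfl⟩
  rw [← hla] at hfs'
  rw [← hlb] at hgs'
  rw [← hlc] at hhs'
  obtain ⟨fa1, fa2⟩ := abs_le.mp hfs'
  obtain ⟨gb1, gb2⟩ := abs_le.mp hgs'
  obtain ⟨hc1, hc2⟩ := abs_le.mp hhs'
  have hxR : (1 : ℝ) ≤ x := by exact_mod_cast hx
  have hyR : (1 : ℝ) ≤ y := by exact_mod_cast hy
  have hzR : (1 : ℝ) ≤ z := by exact_mod_cast hz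
  have hxη : (x : ℝ) * η ≤ M * η := mul_le_mul_of_nonneg_right hxM hη0
  have hyη : (y : ℝ) * η ≤ M * η := mul_le_mul_of_nonneg_right hyM hη0
  have hzη : (z : ℝ) * η ≤ M * η := mul_le_mul_of_nonneg_right hzM hη0
  have hlog2 : Real.log 2 < 0.6931471808 := Real.log_two_lt_d9
  have hℓ0 : 2 ≤ ℓ := by linarith
  -- the exponents of the two large terms
  have k1 : y * lb ≤ z * lc := by
    rw [hlb, hlc, ← Real.log_pow, ← Real.log_pow]
    exact Real.log_le_log hby (by linarith)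
  have k2 : z * lc ≤ Real.log 2 + y * lb := by
    rw [hlb, hlc, ← Real.log_pow, ← Real.log_pow, ← Real.log_mul (by norm_num) hby.ne']
    exact Real.log_le_log hcz (by linarith)
  have k3 : (z : ℝ) * lc ≤ z * (r * ℓ + η) := mul_le_mul_of_nonneg_left (by linarith) (by linarith)
  have k4 : (z : ℝ) * (r * ℓ - η) ≤ z * lc := mul_le_mul_of_nonneg_left (by linarith) (by linarith)
  have k5 : (y : ℝ) * lb ≤ y * (q * ℓ + η) := mul_le_mul_of_nonneg_left (by linarith) (by linarith)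
  have k6 : (y : ℝ) * (q * ℓ - η) ≤ y * lb := mul_le_mul_of_nonneg_left (by linarith) (by linarith)
  have hzr : z * r = y * q := by
    obtain ⟨s, hs⟩ : ∃ s : ℤ, s = (z : ℤ) * r - y * q := ⟨_, rfl⟩
    have hsR : (s : ℝ) = (z : ℝ) * r - y * q := by rw [hs]; push_cast; ring
    have h1 : (s : ℝ) * ℓ < 1 * ℓ := by
      have e : (s : ℝ) * ℓ = z * (r * ℓ - η) - y * (q * ℓ + η) + (z * η + y * η) := by
        rw [hsR]; ring
      rw [e]
      linarith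
    have h2 : (-1) * ℓ < (s : ℝ) * ℓ := by
      have e : (s : ℝ) * ℓ = z * (r * ℓ + η) - y * (q * ℓ - η) - (z * η + y * η) := by
        rw [hsR]; ring
      rw [e]
      linarith
    have h3 : (s : ℝ) < 1 := lt_of_mul_lt_mul_right h1 (by linarith)
    have h4 : (-1 : ℝ) < s := lt_of_mul_lt_mul_right h2 (by linarith)
    have h5 : s < 1 := by exact_mod_cast h3
    have h6 : -1 < s := by exact_mod_cast h4
    have h7 : s = 0 := by omega
    have h8 : (z : ℤ) * r = y * q := by omega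
    exact_mod_cast h8
  obtain ⟨d, hd⟩ : ∃ d, d = Nat.gcd y z := ⟨_, rfl⟩
  have hd0 : 0 < d := by rw [hd]; exact Nat.gcd_pos_of_pos_left _ (by omega)
  obtain ⟨y', z', hcop, hy', hz'⟩ : ∃ y' z', Nat.Coprime y' z' ∧ y = y' * d ∧ z = z' * d := by
    obtain ⟨y', hy'⟩ := Nat.gcd_dvd_left y z
    obtain ⟨z', hz'⟩ := Nat.gcd_dvd_right y z
    rw [← hd] at hy' hz'
    refine ⟨y', z', ?_, by rw [hy', mul_comm], by rw [hz', mul_comm]⟩
    have h1 : Nat.gcd (d * y') (d * z') = d := by rw [← hy', ← hz', ← hd]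
    rw [Nat.gcd_mul_left] at h1
    exact Nat.eq_of_mul_eq_mul_left hd0 (by rw [h1, mul_one])
  have hy'0 : 0 < y' := Nat.pos_of_ne_zero (by rintro rfl; omega)
  have hz'0 : 0 < z' := Nat.pos_of_ne_zero (by rintro rfl; omega)
  have hzr' : z' * r = y' * q := by
    rw [hy', hz'] at hzr
    apply Nat.eq_of_mul_eq_mul_right hd0
    calc z' * r * d = z' * d * r := by ring
      _ = y' * d * q := hzr
      _ = y' * q * d := by ring
  have hy'K : y' ≤ K := by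
    have h1 : y' ∣ z' * r := ⟨q, hzr'⟩
    exact (Nat.le_of_dvd (by omega) (hcop.dvd_of_dvd_mul_left h1)).trans hhK
  have hz'K : z' ≤ K := by
    have h1 : z' ∣ y' * q := ⟨r, hzr'.symm⟩
    exact (Nat.le_of_dvd (by omega) (hcop.symm.dvd_of_dvd_mul_left h1)).trans hgK
  -- the polynomial `E`
  obtain ⟨E, hE⟩ : ∃ E : ℤ[X], E = h ^ z' - g ^ y' := ⟨_, rfl⟩
  have hEeval : E.eval (t : ℤ) = c ^ z' - b ^ y' := by
    rw [hE, eval_sub, eval_pow, eval_pow, ← hc, ← hb]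
  have hbc : b ^ y' < c ^ z' := by
    by_contra hcon
    push Not at hcon
    have h1 : (c ^ z') ^ d ≤ (b ^ y') ^ d := pow_le_pow_left₀ (by positivity) hcon d
    rw [← pow_mul, ← pow_mul, ← hy', ← hz'] at h1
    have h2 : 0 < a ^ x := by positivity
    linarith
  have hEpos : 0 < E.eval (t : ℤ) := by rw [hEeval]; linarith
  have hEdeg : E.natDegree ≤ K ^ 2 := by
    rw [hE]; exact natDegree_pow_sub (by omega) (by omega) hy'K hz'K
  have hEcoef : ∀ n, |(E.coeff n : ℝ)| ≤ 2 * ((K + 1) * B) ^ K := by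
    rw [hE]; exact hcoefE y' z' hy'K hz'K
  obtain ⟨B', hB'⟩ : ∃ B' : ℝ, B' = 2 * ((K + 1) * B) ^ K := ⟨_, rfl⟩
  rw [← hB'] at hEcoef hB't hℓ2
  have hB'0 : 0 < B' := by
    rw [hB']
    have : (0 : ℝ) ≤ K := by positivity
    positivity
  have hElead : 0 < E.leadingCoeff := by
    rcases lead_pos ht hB'0.le (by linarith) hEcoef hEpos.le with h1 | h1
    · rw [h1] at hEpos
      simp at hEpos
    · exact h1
  obtain ⟨_, hEs⟩ := log_size ht hB'0.le (by linarith) hEcoef hElead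
  have hEη : 4 * B' / t ≤ 1 / 4 := by
    rw [div_le_div_iff₀ hT0 (by norm_num)]
    linarith
  obtain ⟨e, he⟩ : ∃ e, e = E.natDegree := ⟨_, rfl⟩
  obtain ⟨ε, hε⟩ : ∃ ε : ℝ, ε = (E.leadingCoeff : ℝ) := ⟨_, rfl⟩
  rw [← he] at hEs hEdeg
  rw [← hε] at hEs
  have hε1 : 1 ≤ ε := by rw [hε]; exact_mod_cast hElead
  have hεB : ε ≤ B' := by
    have := hEcoef E.natDegree
    rw [coeff_natDegree, ← hε, abs_of_pos (by linarith)] at this
    exact this
  obtain ⟨lE, hlE⟩ : ∃ lE : ℝ, lE = Real.log ((E.eval (t : ℤ) : ℤ) : ℝ) := ⟨_, rfl⟩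
  rw [← hlE] at hEs
  obtain ⟨hE1, hE2⟩ := abs_le.mp (hEs.trans hEη)
  have hER : (0 : ℝ) < ((E.eval (t : ℤ) : ℤ) : ℝ) := by exact_mod_cast hEpos
  -- the logarithm of the first term
  obtain ⟨j, hj⟩ : ∃ j, d = j + 1 := ⟨d - 1, by omega⟩
  have hUV : (c : ℝ) ^ z' - (b : ℝ) ^ y' = ((E.eval (t : ℤ) : ℤ) : ℝ) := by
    rw [hEeval]; push_cast; ring
  have hax' : (a : ℝ) ^ x = ((c : ℝ) ^ z') ^ (j + 1) - ((b : ℝ) ^ y') ^ (j + 1) := by
    rw [← pow_mul, ← pow_mul, ← hj, ← hy', ← hz']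
    linarith
  obtain ⟨m1, m2⟩ := pow_diff (b := (b : ℝ) ^ y') (c := (c : ℝ) ^ z') (by positivity)
    (by exact_mod_cast hbc.le) j
  rw [← hax', hUV] at m1 m2
  have hj1 : (0 : ℝ) < ((j + 1 : ℕ) : ℝ) := by positivity
  have n1 : Real.log ((j + 1 : ℕ) : ℝ) + j * (y' * lb) + lE ≤ x * la := by
    have h1 := Real.log_le_log (by positivity) m1
    rw [Real.log_mul (by positivity) hER.ne', Real.log_mul hj1.ne' (by positivity), Real.log_pow,
      Real.log_pow, Real.log_pow, ← hlb, ← hla, ← hlE] at h1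
    exact h1
  have n2 : x * la ≤ Real.log ((j + 1 : ℕ) : ℝ) + j * (z' * lc) + lE := by
    have h1 := Real.log_le_log hax m2
    rw [Real.log_mul (by positivity) hER.ne', Real.log_mul hj1.ne' (by positivity), Real.log_pow,
      Real.log_pow, Real.log_pow, ← hlc, ← hla, ← hlE] at h1
    exact h1
  have hjR : (0 : ℝ) ≤ j := by positivity
  have hjy : (j : ℝ) * y' ≤ y := by
    have : j * y' ≤ y := by
      rw [hy', hj, mul_comm]
      exact Nat.mul_le_mul_left y' (Nat.le_succ j)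
    exact_mod_cast this
  have hjz : (j : ℝ) * z' ≤ z := by
    have : j * z' ≤ z := by
      rw [hz', hj, mul_comm]
      exact Nat.mul_le_mul_left z' (Nat.le_succ j)
    exact_mod_cast this
  have hyq : (y' : ℝ) * q = z' * r := by exact_mod_cast hzr'.symm
  have o1 : (j : ℝ) * (y' * (q * ℓ - η)) ≤ j * (y' * lb) :=
    mul_le_mul_of_nonneg_left (mul_le_mul_of_nonneg_left (by linarith) (by positivity)) hjR
  have o2 : (j : ℝ) * (z' * lc) ≤ j * (z' * (r * ℓ + η)) :=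
    mul_le_mul_of_nonneg_left (mul_le_mul_of_nonneg_left (by linarith) (by positivity)) hjR
  have o3 : (x : ℝ) * la ≤ x * (p * ℓ + η) := mul_le_mul_of_nonneg_left (by linarith) (by linarith)
  have o4 : (x : ℝ) * (p * ℓ - η) ≤ x * la := mul_le_mul_of_nonneg_left (by linarith) (by linarith)
  have o5 : (j : ℝ) * y' * η ≤ y * η := mul_le_mul_of_nonneg_right hjy hη0
  have o6 : (j : ℝ) * z' * η ≤ z * η := mul_le_mul_of_nonneg_right hjz hη0
  obtain ⟨s, hs⟩ : ∃ s : ℤ, s = (x : ℤ) * p - j * (z' * r) - e := ⟨_, rfl⟩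
  have hsR : (s : ℝ) = (x : ℝ) * p - j * (z' * r) - e := by rw [hs]; push_cast; ring
  have hlt : Real.log t = ℓ - L := by rw [hℓd]; ring
  have hlogj : 0 ≤ Real.log ((j + 1 : ℕ) : ℝ) := Real.log_nonneg (by push_cast; linarith)
  have hlogε : 0 ≤ Real.log ε := Real.log_nonneg hε1
  have heR : (e : ℝ) ≤ (K : ℝ) ^ 2 := by exact_mod_cast hEdeg
  have heL : (e : ℝ) * L ≤ (K : ℝ) ^ 2 * L := mul_le_mul_of_nonneg_right heR hL
  have q1 : (s : ℝ) * ℓ ≤ Real.log ((j + 1 : ℕ) : ℝ) + Real.log ε - e * L + 1 / 2 := by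
    have e1 : (s : ℝ) * ℓ = x * (p * ℓ - η) - j * (z' * (r * ℓ + η)) - e * ℓ + x * η + j * z' * η := by
      rw [hsR]; ring
    rw [e1]
    rw [hlt] at hE2
    linarith
  have q2 : Real.log ((j + 1 : ℕ) : ℝ) + Real.log ε - e * L - 1 / 2 ≤ (s : ℝ) * ℓ := by
    have e1 : (s : ℝ) * ℓ = x * (p * ℓ + η) - j * (y' * (q * ℓ - η)) - e * ℓ - x * η - j * y' * η := by
      rw [hsR, ← hyq]; ring
    rw [e1]
    rw [hlt] at hE1
    linarith
  have hjM : Real.log ((j + 1 : ℕ) : ℝ) ≤ Real.log M := by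
    apply Real.log_le_log hj1
    refine le_trans ?_ hyM
    rw [← hj]
    have : d ≤ y := by rw [hy']; exact Nat.le_mul_of_pos_left d hy'0
    exact_mod_cast this
  have hεB' : Real.log ε ≤ Real.log B' := Real.log_le_log (by linarith) hεB
  have heL0 : 0 ≤ (e : ℝ) * L := by positivity
  have hs0 : s = 0 := by
    have h1 : (s : ℝ) * ℓ < 1 * ℓ := by linarith
    have h2 : (-1) * ℓ < (s : ℝ) * ℓ := by linarith
    have h3 : (s : ℝ) < 1 := lt_of_mul_lt_mul_right h1 (by linarith)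
    have h4 : (-1 : ℝ) < s := lt_of_mul_lt_mul_right h2 (by linarith)
    have h5 : s < 1 := by exact_mod_cast h3
    have h6 : -1 < s := by exact_mod_cast h4
    omega
  rw [hs0] at q2
  have hlogd : Real.log (d : ℝ) ≤ (K : ℝ) ^ 2 * L + 1 / 2 := by
    rw [hj]
    push_cast at q2 ⊢
    push_cast at hlogj
    linarith
  have hdR : (0 : ℝ) < d := by exact_mod_cast hd0
  have hdexp : (d : ℝ) ≤ Real.exp ((K : ℝ) ^ 2 * L + 1 / 2) := by
    rw [← Real.log_le_iff_le_exp hdR]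
    exact hlogd
  have hKpos : 1 ≤ K := le_trans hf1 hfK
  have hKK : K ≤ K ^ 2 := by rw [sq]; exact Nat.le_mul_of_pos_left K (by omega)
  have key : ∀ w : ℕ, w ≤ K ^ 2 * d → (w : ℝ) ≤ K ^ 2 * Real.exp (K ^ 2 * L + 1 / 2) := by
    intro w hw
    have h1 : (w : ℝ) ≤ (K : ℝ) ^ 2 * d := by exact_mod_cast hw
    exact h1.trans (mul_le_mul_of_nonneg_left hdexp (by positivity))
  refine ⟨key x ?_, key y ?_, key z ?_⟩
  · have h1 : (x : ℤ) * p = j * (z' * r) + e := by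
      rw [hs0] at hs
      linarith
    have h2 : x * p = j * (z' * r) + e := by exact_mod_cast h1
    have h3 : x ≤ x * p := Nat.le_mul_of_pos_right x (by omega)
    have h4 : z' * r ≤ K ^ 2 := by rw [sq]; exact Nat.mul_le_mul hz'K hhK
    have h5 : j * (z' * r) ≤ j * K ^ 2 := Nat.mul_le_mul_left j h4
    calc x ≤ x * p := h3
      _ = j * (z' * r) + e := h2
      _ ≤ j * K ^ 2 + K ^ 2 := Nat.add_le_add h5 hEdeg
      _ = K ^ 2 * d := by rw [hj]; ring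
  · rw [hy']
    exact Nat.mul_le_mul_right d (hy'K.trans hKK)
  · rw [hz']
    exact Nat.mul_le_mul_right d (hz'K.trans hKK)

/-- The identity. -/
theorem identity {K t x y z N : ℕ} {f g h : ℤ[X]} {B : ℝ}
    (hfK : f.natDegree ≤ K) (hgK : g.natDegree ≤ K) (hhK : h.natDegree ≤ K)
    (hB : 1 ≤ B) (hfB : ∀ n, |(f.coeff n : ℝ)| ≤ B) (hgB : ∀ n, |(g.coeff n : ℝ)| ≤ B)
    (hhB : ∀ n, |(h.coeff n : ℝ)| ≤ B) (ht : 2 ≤ t) (hN : 6 * ((K + 1) * B) ^ N < t)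
    (hx : x ≤ N) (hy : y ≤ N) (hz : z ≤ N)
    (heq : f.eval (t : ℤ) ^ x + g.eval (t : ℤ) ^ y = h.eval (t : ℤ) ^ z) :
    f ^ x + g ^ y = h ^ z := by
  have h3 : (1 : ℝ) ≤ (K + 1) * B := by
    have : (0 : ℝ) ≤ K := by positivity
    nlinarith
  have h1 := (((maj_box hfK hfB).pow x).add ((maj_box hgK hgB).pow y)).sub ((maj_box hhK hhB).pow z)
  have h2 : ∀ n, |((f ^ x + g ^ y - h ^ z).coeff n : ℝ)| ≤ 3 * ((K + 1) * B) ^ N := by
    intro n
    have h4 := h1.le_eval n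
    rw [eval_add, eval_add, eval_pow, eval_pow, eval_pow, box_eval] at h4
    have h5 : (((K : ℝ) + 1) * B) ^ x ≤ ((K + 1) * B) ^ N := pow_le_pow_right₀ h3 hx
    have h6 : (((K : ℝ) + 1) * B) ^ y ≤ ((K + 1) * B) ^ N := pow_le_pow_right₀ h3 hy
    have h7 : (((K : ℝ) + 1) * B) ^ z ≤ ((K + 1) * B) ^ N := pow_le_pow_right₀ h3 hz
    linarith
  have h4 := eq_zero_of_eval ht (by positivity) (by linarith) h2 (by
    rw [eval_sub, eval_add, eval_pow, eval_pow, eval_pow, heq, sub_self])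
  exact sub_eq_zero.mp h4

/-- The theorem of Mason and Stothers. -/
theorem mason {f g h : ℤ[X]} {x y z : ℕ} (hx : x ≠ 0) (hy : y ≠ 0) (hz : z ≠ 0)
    (hf : 0 < f.natDegree) (hg : g ≠ 0) (hh : h ≠ 0)
    (hcop : IsCoprime (f.map (Int.castRingHom ℚ)) (g.map (Int.castRingHom ℚ)))
    (heq : f ^ x + g ^ y = h ^ z) : x * y * z < y * z + z * x + x * y := by
  by_contra hcon
  push Not at hcon
  have hinj : Function.Injective (Int.castRingHom ℚ) := Int.cast_injective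
  have hne : ∀ {P : ℤ[X]}, P ≠ 0 → P.map (Int.castRingHom ℚ) ≠ 0 := fun h =>
    (Polynomial.map_ne_zero_iff hinj).mpr h
  have hf0 : f ≠ 0 := by rintro rfl; simp at hf
  have h1 := Polynomial.flt_catalan (k := ℚ) (p := x) (q := y) (r := z) hx hy hz hcon
    (by exact_mod_cast hx) (by exact_mod_cast hy) (by exact_mod_cast hz) (hne hf0) (hne hg) (hne hh)
    hcop (u := 1) (v := 1) (w := -1) (by norm_num) (by norm_num) (by norm_num) (by
      rw [← Polynomial.map_pow, ← Polynomial.map_pow, ← Polynomial.map_pow, ← heq,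
        Polynomial.map_add]
      simp)
  have h2 := h1.1
  rw [natDegree_map_eq_of_injective hinj] at h2
  omega

end Pool.Agent.Q103.FC
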