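import Mathlib
import Pool.Agent.Q103.FC.Step

/-!
# Integer polynomials with small coefficients and unit constant terms at a large integer
-/

set_option autoImplicit false

namespace Pool.Agent.Q103.FC

open Polynomial Finset

/-- Geometric majorisation of the coefficients. -/
def Geo (P : ℤ[X]) (W : ℝ) : Prop := ∀ i, |(P.coeff i : ℝ)| ≤ W ^ i

theorem Geo.mul {P Q : ℤ[X]} {W V : ℝ} (h : Geo P W) (k : Geo Q V) (hW : 0 ≤ W) (hV : 0 ≤ V) :
    Geo (P * Q) (W + V) := by
  intro n
  rw [coeff_mul, Commute.add_pow' (Commute.all W V)]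
  push_cast
  refine (Finset.abs_sum_le_sum_abs _ _).trans (Finset.sum_le_sum fun x hx => ?_)
  rw [abs_mul]
  have h1 : |(P.coeff x.1 : ℝ)| * |(Q.coeff x.2 : ℝ)| ≤ W ^ x.1 * V ^ x.2 :=
    mul_le_mul (h _) (k _) (abs_nonneg _) (by positivity)
  refine h1.trans ?_
  have hle : x.1 ≤ n := by
    have := HasAntidiagonal.mem_antidiagonal.mp hx
    omega
  have h2 : 1 ≤ n.choose x.1 := Nat.choose_pos hle
  have h3 : (1 : ℝ) ≤ n.choose x.1 := by exact_mod_cast h2
  rw [nsmul_eq_mul]
  have h4 : 0 ≤ W ^ x.1 * V ^ x.2 := by positivity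
  nlinarith

theorem Geo.pow {P : ℤ[X]} {W : ℝ} (h : Geo P W) (hW : 0 ≤ W) (k : ℕ) :
    Geo (P ^ k) (k * W) := by
  induction k with
  | zero =>
    intro i
    rcases Nat.eq_zero_or_pos i with rfl | hi
    · simp
    · rw [pow_zero, coeff_one, if_neg (by omega)]
      simp only [Int.cast_zero, abs_zero]
      positivity
  | succ k ih =>
    rw [pow_succ]
    have := ih.mul h (by positivity) hW
    push_cast
    rw [add_mul, one_mul]
    exact this

theorem X_pow_dvd_of_eval {P : ℤ[X]} {t : ℕ} (ht : 0 < t) (I : ℕ)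
    (h : ∀ i, i < I → |(P.coeff i : ℝ)| < t) (h0 : P.eval (t : ℤ) = 0) : X ^ I ∣ P := by
  induction I with
  | zero => simp
  | succ I ih =>
    obtain ⟨Q, hQ⟩ := ih fun i hi => h i (by omega)
    have h1 : Q.eval (t : ℤ) = 0 := by
      rw [hQ, eval_mul, eval_pow, eval_X] at h0
      rcases mul_eq_zero.mp h0 with h2 | h2
      · exfalso
        have : (t : ℤ) ≠ 0 := by exact_mod_cast ht.ne'
        exact pow_ne_zero _ this h2
      · exact h2
    have h2 : ((t : ℤ) - 0) ∣ Q.eval (t : ℤ) - Q.eval 0 := sub_dvd_eval_sub _ _ _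
    rw [h1, sub_zero, zero_sub, dvd_neg, ← coeff_zero_eq_eval_zero] at h2
    have h3 : P.coeff I = Q.coeff 0 := by
      rw [hQ]
      have := coeff_X_pow_mul Q I 0
      rwa [zero_add] at this
    have h4 : |(Q.coeff 0 : ℝ)| < t := by
      rw [← h3]
      exact h I (by omega)
    have h5 : |Q.coeff 0| < t := by exact_mod_cast h4
    have h6 : Q.coeff 0 = 0 := by
      by_contra hne
      have h7 := Int.le_of_dvd (abs_pos.mpr hne) ((dvd_abs _ _).mpr h2)
      omega
    rw [pow_succ, hQ]
    exact mul_dvd_mul_left _ (X_dvd_iff.mpr h6)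

/-- Vanishing Wronskian: the degrees are equal. -/
theorem natDegree_eq_of_wronskian {a b : ℤ[X]} (ha : a ≠ 0) (hb : b ≠ 0)
    (h : derivative a * b = a * derivative b) : a.natDegree = b.natDegree := by
  have key : ∀ {a b : ℤ[X]}, a ≠ 0 → b ≠ 0 → derivative a * b = a * derivative b →
      b.natDegree < a.natDegree → False := by
    intro a b ha hb h hlt
    obtain ⟨m, hm⟩ : ∃ m, a.natDegree = m + 1 := ⟨a.natDegree - 1, by omega⟩
    have h1 : (derivative a * b).coeff (m + b.natDegree) =
        (derivative a).coeff m * b.coeff b.natDegree :=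
      coeff_mul_add_eq_of_natDegree_le (by
        have := natDegree_derivative_le a
        omega) le_rfl
    have hla : a.leadingCoeff ≠ 0 := leadingCoeff_ne_zero.mpr ha
    have hlb : b.leadingCoeff ≠ 0 := leadingCoeff_ne_zero.mpr hb
    rw [coeff_derivative, coeff_natDegree, ← hm, coeff_natDegree, h] at h1
    rcases Nat.eq_zero_or_pos b.natDegree with hb0 | hb0
    · have h2 : derivative b = 0 := by
        rw [eq_C_of_natDegree_eq_zero hb0, derivative_C]
      rw [h2, mul_zero, coeff_zero] at h1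
      have h3 : (0 : ℤ) ≠ a.leadingCoeff * ((m : ℤ) + 1) * b.leadingCoeff := by
        have : ((m : ℤ) + 1) ≠ 0 := by positivity
        exact (mul_ne_zero (mul_ne_zero hla this) hlb).symm
      exact h3 h1
    · obtain ⟨n, hn⟩ : ∃ n, b.natDegree = n + 1 := ⟨b.natDegree - 1, by omega⟩
      have h2 : (a * derivative b).coeff (a.natDegree + n) =
          a.coeff a.natDegree * (derivative b).coeff n :=
        coeff_mul_add_eq_of_natDegree_le le_rfl (by
          have := natDegree_derivative_le b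
          omega)
      have e : a.natDegree + n = m + b.natDegree := by omega
      rw [e, h1, coeff_derivative, coeff_natDegree, ← hn, coeff_natDegree] at h2
      have h3 : a.leadingCoeff * b.leadingCoeff * ((m : ℤ) - n) = 0 := by
        linear_combination h2
      have h4 : ((m : ℤ) - n) ≠ 0 := by omega
      exact (mul_ne_zero (mul_ne_zero hla hlb) h4) h3
  rcases lt_trichotomy a.natDegree b.natDegree with h1 | h1 | h1
  · exact (key hb ha (by rw [mul_comm, ← h, mul_comm]) h1).elim
  · exact h1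
  · exact (key ha hb h h1).elim

/-- `P (P^n)' = n P' P^n`. -/
theorem mul_derivative_pow (P : ℤ[X]) (n : ℕ) :
    P * derivative (P ^ n) = (n : ℤ[X]) * derivative P * P ^ n := by
  rcases Nat.eq_zero_or_pos n with rfl | hn
  · simp
  · obtain ⟨m, rfl⟩ : ∃ m, n = m + 1 := ⟨n - 1, by omega⟩
    rw [derivative_pow_succ, pow_succ]
    simp only [map_add, map_natCast, map_one]
    push_cast
    ring

theorem natDegree_derivative_le' {P : ℤ[X]} {K : ℕ} (h : P.natDegree ≤ K) :
    (derivative P).natDegree ≤ K :=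
  (natDegree_derivative_le P).trans (by omega)

/-- The polynomial `n g' h - m h' g`. -/
noncomputable def Wr (g h : ℤ[X]) (m n : ℕ) : ℤ[X] :=
  (n : ℤ[X]) * derivative h * g - (m : ℤ[X]) * derivative g * h

theorem natDegree_Wr {g h : ℤ[X]} {K L : ℕ} (hg : g.natDegree ≤ K) (hh : h.natDegree ≤ L) (m n : ℕ) :
    (Wr g h m n).natDegree ≤ K + L := by
  have h1 : ((n : ℤ[X]) * derivative h * g).natDegree ≤ K + L := by
    refine natDegree_mul_le.trans ?_
    have h2 : ((n : ℤ[X]) * derivative h).natDegree ≤ L := by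
      refine natDegree_mul_le.trans ?_
      rw [natDegree_natCast]
      have := natDegree_derivative_le' hh
      omega
    omega
  have h1' : ((m : ℤ[X]) * derivative g * h).natDegree ≤ K + L := by
    refine natDegree_mul_le.trans ?_
    have h2 : ((m : ℤ[X]) * derivative g).natDegree ≤ K := by
      refine natDegree_mul_le.trans ?_
      rw [natDegree_natCast]
      have := natDegree_derivative_le' hg
      omega
    omega
  rw [Wr]
  exact (natDegree_sub_le _ _).trans (max_le h1 h1')

/-- Cancellation of a factor which is prime to `X`. -/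
theorem cancel {A B : ℤ[X]} {n : ℕ} (hA : A.coeff 0 ≠ 0) (h : X ^ n ∣ A * B) : X ^ n ∣ B := by
  refine Prime.pow_dvd_of_dvd_mul_left (prime_X : Prime (X : ℤ[X])) n ?_ h
  rw [X_dvd_iff]
  exact hA

theorem eq_zero_of_X_pow_dvd {P : ℤ[X]} {n : ℕ} (h : X ^ n ∣ P) (hn : P.natDegree < n) : P = 0 := by
  apply Polynomial.eq_zero_of_dvd_of_natDegree_lt h
  rw [natDegree_X_pow]
  exact hn

theorem X_pow_dvd_derivative {P : ℤ[X]} {n : ℕ} (h : X ^ (n + 1) ∣ P) : X ^ n ∣ derivative P := by
  obtain ⟨Q, rfl⟩ := h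
  rw [derivative_mul, derivative_X_pow]
  simp only [Nat.add_sub_cancel]
  refine dvd_add ?_ ?_
  · exact ⟨(C ((n + 1 : ℕ) : ℤ)) * Q, by ring⟩
  · exact ⟨X * derivative Q, by ring⟩

/-- The truncated identity bounds the exponents. -/
theorem half {K I x y z : ℕ} {f g h : ℤ[X]} {σ τ : ℤ} (hτ : τ ≠ 0)
    (hI : 3 * K ^ 3 + 6 * K ^ 2 + 7 * K + 5 ≤ I)
    (hf : f.natDegree ≤ K) (hg : g.natDegree ≤ K) (hh : h.natDegree ≤ K)
    (f0 : f.coeff 0 = 0) (h0 : h.coeff 0 ≠ 0) (hfne : f ≠ 0)
    (hh1 : 0 < h.natDegree) (hW : Wr g h y z ≠ 0)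
    (hd : X ^ I ∣ C σ * g ^ y + C τ * h ^ z - f ^ x) :
    x ≤ 3 * K ∧ z ≤ 3 * K ^ 2 + 3 * K := by
  obtain ⟨J, rfl⟩ : ∃ J, I = J + 2 := ⟨I - 2, by omega⟩
  set U := C σ * g ^ y with hU
  set V := C τ * h ^ z with hV
  set F := f ^ x with hF
  have dU : g * derivative U = (y : ℤ[X]) * derivative g * U := by
    rw [hU, derivative_C_mul, mul_left_comm, mul_derivative_pow]
    ring
  have dV : h * derivative V = (z : ℤ[X]) * derivative h * V := by
    rw [hV, derivative_C_mul, mul_left_comm, mul_derivative_pow]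
    ring
  have dF : f * derivative F = (x : ℤ[X]) * derivative f * F := by
    rw [hF, mul_derivative_pow]
  have hhne : h ≠ 0 := by rintro rfl; simp at hh1
  have hV0 : V.coeff 0 ≠ 0 := by
    rw [hV, coeff_C_mul, coeff_zero_eq_eval_zero, eval_pow, ← coeff_zero_eq_eval_zero]
    exact mul_ne_zero hτ (pow_ne_zero _ h0)
  set P1 := Wr g h y z with hP1
  set P2 := Wr g f y x with hP2
  have e1 : X ^ (J + 1) ∣ V * (f * P1) - h * F * P2 := by
    have h1 : V * (f * P1) - h * F * P2 =
        f * g * h * derivative (U + V - F) - (y : ℤ[X]) * derivative g * h * f * (U + V - F) := by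
      rw [hP1, hP2, Wr, Wr, derivative_sub, derivative_add]
      linear_combination (-(f * h)) * dU - (f * g) * dV + (g * h) * dF
    rw [h1]
    exact dvd_sub (Dvd.dvd.mul_left (X_pow_dvd_derivative hd) _)
      (Dvd.dvd.mul_left ((pow_dvd_pow _ (by omega)).trans hd) _)
  have hP1d : P1.natDegree ≤ 2 * K := by
    have : P1.natDegree ≤ K + K := natDegree_Wr hg hh y z
    omega
  have hP2d : P2.natDegree ≤ 2 * K := by
    have : P2.natDegree ≤ K + K := natDegree_Wr hg hf y x
    omega
  set G1 := f * P1 with hG1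
  set G2 := h * F * P2 with hG2
  have hG1d : G1.natDegree ≤ 3 * K := by
    have : G1.natDegree ≤ f.natDegree + P1.natDegree := natDegree_mul_le
    omega
  have hG1ne : G1 ≠ 0 := mul_ne_zero hfne hW
  have hK3 : 0 ≤ K ^ 3 := Nat.zero_le _
  have hK2 : 0 ≤ K ^ 2 := Nat.zero_le _
  have hx : x ≤ 3 * K := by
    by_contra hcon
    push Not at hcon
    have h1 : X ^ (3 * K + 1) ∣ F := by
      rw [hF]
      exact (pow_dvd_pow _ (by omega)).trans (pow_dvd_pow_of_dvd (X_dvd_iff.mpr f0) x)
    have h2 : X ^ (3 * K + 1) ∣ V * G1 := by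
      have h3 : V * G1 = (V * G1 - G2) + G2 := by ring
      rw [h3]
      refine dvd_add ((pow_dvd_pow _ (by omega)).trans e1) ?_
      rw [hG2]
      exact Dvd.dvd.mul_right (Dvd.dvd.mul_left h1 _) _
    exact hG1ne (eq_zero_of_X_pow_dvd (cancel hV0 h2) (by omega))
  refine ⟨hx, ?_⟩
  have hFd : F.natDegree ≤ 3 * K ^ 2 := by
    rw [hF]
    refine (natDegree_pow_le_of_le x hf).trans ?_
    nlinarith
  have hG2d : G2.natDegree ≤ 3 * K ^ 2 + 3 * K := by
    have h1 : G2.natDegree ≤ (h * F).natDegree + P2.natDegree := natDegree_mul_le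
    have h2 := natDegree_mul_le (p := h) (q := F)
    omega
  have hG2ne : G2 ≠ 0 := by
    intro h1
    rw [h1, sub_zero] at e1
    exact hG1ne (eq_zero_of_X_pow_dvd (cancel hV0 e1) (by omega))
  have hH : ((z : ℤ[X]) * derivative h * G1 + h * derivative G1).natDegree ≤ 4 * K := by
    have k1 : ((z : ℤ[X]) * derivative h * G1).natDegree ≤ 4 * K := by
      have h1 := natDegree_mul_le (p := (z : ℤ[X]) * derivative h) (q := G1)
      have h2 := natDegree_mul_le (p := (z : ℤ[X])) (q := derivative h)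
      rw [natDegree_natCast] at h2
      have h3 := natDegree_derivative_le' hh
      omega
    have k2 : (h * derivative G1).natDegree ≤ 4 * K := by
      have h1 := natDegree_mul_le (p := h) (q := derivative G1)
      have h3 := natDegree_derivative_le' hG1d
      omega
    exact (natDegree_add_le _ _).trans (max_le k1 k2)
  have e2 : G2 * ((z : ℤ[X]) * derivative h * G1 + h * derivative G1) - h * G1 * derivative G2 = 0 := by
    apply eq_zero_of_X_pow_dvd (n := J)
    · have h1 : G2 * ((z : ℤ[X]) * derivative h * G1 + h * derivative G1) - h * G1 * derivative G2 =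
          G1 * h * derivative (V * G1 - G2) -
            ((z : ℤ[X]) * derivative h * G1 + h * derivative G1) * (V * G1 - G2) := by
        have d1 : derivative (V * G1) = derivative V * G1 + V * derivative G1 := derivative_mul
        rw [derivative_sub, d1]
        linear_combination (-(G1 * G1)) * dV
      rw [h1]
      exact dvd_sub (Dvd.dvd.mul_left (X_pow_dvd_derivative e1) _)
        (Dvd.dvd.mul_left ((pow_dvd_pow _ (by omega)).trans e1) _)
    · have k1 : (G2 * ((z : ℤ[X]) * derivative h * G1 + h * derivative G1)).natDegree ≤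
          3 * K ^ 2 + 7 * K := by
        have h1 := natDegree_mul_le (p := G2)
          (q := (z : ℤ[X]) * derivative h * G1 + h * derivative G1)
        omega
      have k2 : (h * G1 * derivative G2).natDegree ≤ 3 * K ^ 2 + 7 * K := by
        have h1 := natDegree_mul_le (p := h * G1) (q := derivative G2)
        have h2 := natDegree_mul_le (p := h) (q := G1)
        have h3 := natDegree_derivative_le' hG2d
        omega
      have k3 := (natDegree_sub_le (G2 * ((z : ℤ[X]) * derivative h * G1 + h * derivative G1))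
        (h * G1 * derivative G2)).trans (max_le k1 k2)
      omega
  have e3 : derivative (h ^ z * G1) * G2 = h ^ z * G1 * derivative G2 := by
    apply mul_left_cancel₀ hhne
    rw [derivative_mul]
    have k1 := mul_derivative_pow h z
    linear_combination (G1 * G2) * k1 + h ^ z * e2
  have e4 := natDegree_eq_of_wronskian (mul_ne_zero (pow_ne_zero z hhne) hG1ne) hG2ne e3
  rw [natDegree_mul (pow_ne_zero z hhne) hG1ne, natDegree_pow] at e4
  have e5 : z ≤ z * h.natDegree := Nat.le_mul_of_pos_right _ hh1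
  omega

theorem Wr_swap (g h : ℤ[X]) (m n : ℕ) : Wr h g n m = -Wr g h m n := by
  rw [Wr, Wr]; ring

/-- The truncated identity is an identity. -/
theorem full {K I x y z : ℕ} {f g h : ℤ[X]} {σ τ : ℤ} (hσ : σ ≠ 0) (hτ : τ ≠ 0)
    (hI : 3 * K ^ 3 + 6 * K ^ 2 + 7 * K + 5 ≤ I)
    (hf : f.natDegree ≤ K) (hg : g.natDegree ≤ K) (hh : h.natDegree ≤ K)
    (f0 : f.coeff 0 = 0) (g0 : g.coeff 0 ≠ 0) (h0 : h.coeff 0 ≠ 0) (hfne : f ≠ 0)
    (hg1 : 0 < g.natDegree) (hh1 : 0 < h.natDegree) (hW : Wr g h y z ≠ 0)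
    (hd : X ^ I ∣ C σ * g ^ y + C τ * h ^ z - f ^ x) :
    C σ * g ^ y + C τ * h ^ z = f ^ x := by
  obtain ⟨hx, hz⟩ := half hτ hI hf hg hh f0 h0 hfne hh1 hW hd
  obtain ⟨-, hy⟩ := half (I := I) (σ := τ) (τ := σ) (g := h) (h := g) (y := z) (z := y) hσ hI hf hh hg
    f0 g0 hfne hg1 (by rw [Wr_swap]; exact neg_ne_zero.mpr hW) (by rw [add_comm]; exact hd)
  rw [← sub_eq_zero]
  apply eq_zero_of_X_pow_dvd hd
  have k1 : (C σ * g ^ y).natDegree ≤ 3 * K ^ 3 + 3 * K ^ 2 := by
    refine (natDegree_C_mul_le _ _).trans ((natDegree_pow_le_of_le y hg).trans ?_)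
    calc y * K ≤ (3 * K ^ 2 + 3 * K) * K := Nat.mul_le_mul_right K hy
      _ = 3 * K ^ 3 + 3 * K ^ 2 := by ring
  have k2 : (C τ * h ^ z).natDegree ≤ 3 * K ^ 3 + 3 * K ^ 2 := by
    refine (natDegree_C_mul_le _ _).trans ((natDegree_pow_le_of_le z hh).trans ?_)
    calc z * K ≤ (3 * K ^ 2 + 3 * K) * K := Nat.mul_le_mul_right K hz
      _ = 3 * K ^ 3 + 3 * K ^ 2 := by ring
  have k3 : (f ^ x).natDegree ≤ 3 * K ^ 3 + 3 * K ^ 2 := by
    refine (natDegree_pow_le_of_le x hf).trans ?_
    have : x * K ≤ 3 * K * K := Nat.mul_le_mul_right K hx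
    nlinarith [Nat.zero_le (K ^ 3)]
  have k4 := (natDegree_add_le (C σ * g ^ y) (C τ * h ^ z)).trans (max_le k1 k2)
  have k5 := (natDegree_sub_le (C σ * g ^ y + C τ * h ^ z) (f ^ x)).trans (max_le k4 k3)
  omega

end Pool.Agent.Q103.FC
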